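import Pool.Agent.MP_7af562_mp.Mg.H78_Main

open Pool.Agent.MP_7af562_mp.H78

/-- Local unitary equivalence implies local Clifford equivalence (with the same qubit
permutation) for stabilizer codes with at most 13 generators, of any length. -/
theorem Pool.Agent.Results.MP_7af562_mp.FewGenerators.result
    (n m m' : ℕ) (hm : m ≤ 13)
    (s : Fin m → ℂ) (g : Fin m → Fin n → Matrix (ZMod 2) (ZMod 2) ℂ)
    (_hs : ∀ j, s j = 1 ∨ s j = -1) (hg : ∀ j i, IsPauli (g j i))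
    (s' : Fin m' → ℂ) (g' : Fin m' → Fin n → Matrix (ZMod 2) (ZMod 2) ℂ)
    (_hs' : ∀ j, s' j = 1 ∨ s' j = -1) (hg' : ∀ j i, IsPauli (g' j i))
    (U : Fin n → Matrix (ZMod 2) (ZMod 2) ℂ)
    (hU : ∀ i, U i ∈ Matrix.unitaryGroup (ZMod 2) ℂ) (π : Equiv.Perm (Fin n))
    (h : MapsOnto U π (codespace s g) (codespace s' g')) :
    ∃ C : Fin n → Matrix (ZMod 2) (ZMod 2) ℂ,
      (∀ i, C i ∈ Matrix.unitaryGroup (ZMod 2) ℂ ∧ IsClifford (C i)) ∧
      MapsOnto C π (codespace s g) (codespace s' g') :=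
  main hm s g hg s' g' hg' U hU π h
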