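import Pool.Agent.MP_7af562_mp.Mg.Upper
import Pool.Agent.MP_7af562_mp.Mg.Example

open Pool.Agent.MP_7af562_mp

/-- 24 is the least number of qubits on which two stabilizer codespaces are locally unitarily
equivalent but not locally Clifford equivalent (qubit permutations allowed in both). -/
theorem Pool.Agent.Results.MP_7af562_mp.Threshold24.result :
    IsLeast {n : ℕ | ∃ Q Q' : Set ((Fin n → ZMod 2) → ℂ),
      IsStabCode Q ∧ IsStabCode Q' ∧ LUEquivalent Q Q' ∧ ¬ LCEquivalent Q Q'} 24 := by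
  refine ⟨⟨Q24, Q24', stab24, stab24', lu24, not_lc24⟩, ?_⟩
  rintro n ⟨Q, Q', hQ, hQ', h, hn⟩
  by_contra hlt
  exact hn (upper (by omega) Q Q' hQ hQ' h)
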